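import Pool.Agent.Y63.NV.Stm6
import Pool.Agent.Y63.KR.Chi
import Pool.Agent.Y624.NV.Trn

/-!
# The alternating sum for a block which contains a character of defect zero
-/

open scoped Classical

noncomputable section

namespace Pool.Agent.Y339.NV

open Pool.Agent.Y63.NV Pool.Agent.Y624.NV
open Pool.Agent.Y63.AWC (IsIrreducibleCharacter)
open Pool.Agent.Y63.KR (IsPChain chainStabilizer alternatingSum conjSub exists_least
  alternatingSum_single mem_chainStabilizer conjSub_eq_iff conj_mem_conjSub)

variable {F : Type} [Field F]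

theorem centralValue_zero (red : integralClosure ℤ ℂ →+* F) {J : Type} [Group J] (χ : J → ℂ) :
    centralValue red χ (fun _ => 0) = 0 := by
  unfold centralValue
  simp

/-- a nonempty chain does not contribute -/
theorem empty_chain (h1 : S_KCUT) {p : ℕ} [hp : Fact p.Prime] [IsAlgClosed F] [CharP F p]
    (red : integralClosure ℤ ℂ →+* F) {G : Type} [Group G] [Finite G] {f : G → F}
    (hf : IsClassFun f) (hv : ∀ x : G, p ∣ Nat.card (Subgroup.centralizer ({x} : Set G)) → f x = 0)
    {σ : Set (Subgroup G)} (hσ : IsPChain p σ) (hne : σ.Nonempty)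
    {χ : chainStabilizer σ → ℂ} (hχ : IsIrreducibleCharacter χ) :
    centralValue red χ (fun x => f x) = 0 := by
  obtain ⟨P, hP, hmin⟩ := exists_least hσ.chain hne
  have hle : P ≤ chainStabilizer σ := by
    intro x hx
    rw [mem_chainStabilizer]
    intro Q hQ
    rw [conjSub_eq_iff]
    exact Subgroup.le_normalizer (hmin Q hQ hx)
  have hnorm : (P.subgroupOf (chainStabilizer σ)).Normal := by
    constructor
    intro x hx y
    rw [Subgroup.mem_subgroupOf] at hx ⊢
    have h1 : conjSub (y : G) P = P := mem_chainStabilizer.mp y.2 P hP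
    have h2 := conj_mem_conjSub (g := (y : G)) hx
    rw [h1] at h2
    exact h2
  have hpg : IsPGroup p (P.subgroupOf (chainStabilizer σ)) := (hσ.isPGroup P hP).comap_subtype
  have hcf : IsClassFun (fun x : chainStabilizer σ => f x) := fun g x => by
    simpa using hf (g : G) (x : G)
  have hcut : cut (fun x : chainStabilizer σ => f x)
      (Subgroup.centralizer ((P.subgroupOf (chainStabilizer σ) : Subgroup _) :
        Set (chainStabilizer σ))) = fun _ => 0 := by
    funext x
    unfold cut
    split_ifs with hx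
    · apply hv
      have hsub : P ≤ Subgroup.centralizer ({(x : G)} : Set G) := by
        intro y hy
        rw [Subgroup.mem_centralizer_singleton_iff]
        rw [Subgroup.mem_centralizer_iff] at hx
        have := hx ⟨y, hle hy⟩ (by
          rw [SetLike.mem_coe, Subgroup.mem_subgroupOf]
          exact hy)
        exact congrArg Subtype.val this
      have hdvd : Nat.card P ∣ Nat.card (Subgroup.centralizer ({(x : G)} : Set G)) :=
        Subgroup.card_dvd_of_le hsub
      refine dvd_trans ?_ hdvd
      have hPne := hσ.ne_bot P hP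
      obtain ⟨n, hn⟩ := (IsPGroup.iff_card).1 (hσ.isPGroup P hP)
      rcases n with _ | n
      · exfalso
        rw [pow_zero] at hn
        exact hPne (Subgroup.eq_bot_of_card_eq P hn)
      · rw [hn, pow_succ]
        exact dvd_mul_left _ _
    · rfl
  have := h1 p F red (chainStabilizer σ) (P.subgroupOf (chainStabilizer σ))
    (fun x : chainStabilizer σ => f x) χ hpg hcf hχ
  rw [← this, hcut, centralValue_zero]

theorem kdz (h1 : S_KCUT) (h2 : S_KSEP) : S_KDZ := by
  intro p _ F _ _ _ red G _ _ B hB0
  obtain ⟨⟨⟨χ₀, hχ₀, hB⟩⟩, -⟩ := Nat.card_ne_zero.1 hB0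
  obtain ⟨f, hf, hv, hsep⟩ := h2 p F red G χ₀ hχ₀
  have hne : centralValue red χ₀ f ≠ 0 := (hsep χ₀ hχ₀.irr).2 rfl
  have hBf : B f ≠ 0 := by rw [← hB f hf]; exact hne
  have hs : ∀ σ : Set (Subgroup G), IsPChain p σ → σ.Nonempty →
      (numIrrInd red (chainStabilizer σ) B : ℤ) = 0 := by
    intro σ hσ hσne
    have : IsEmpty {χ : chainStabilizer σ → ℂ // IsIrreducibleCharacter χ ∧
        ∀ f : G → F, IsClassFun f → centralValue red χ (fun x => f x) = B f} := by
      constructor
      rintro ⟨χ, hχ, hχB⟩
      apply hBf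
      rw [← hχB f hf]
      exact empty_chain h1 red hf hv hσ hσne hχ
    unfold numIrrInd
    rw [Nat.card_of_isEmpty]
    rfl
  rw [alternatingSum_single (fun H => (numIrrInd red H B : ℤ)) hs]
  unfold numIrrInd numDzBlock
  congr 1
  let e : (⊤ : Subgroup G) ≃* G := Subgroup.topEquiv
  refine Nat.card_congr ((Equiv.arrowCongr e.toEquiv (Equiv.refl ℂ)).subtypeEquiv fun χ => ?_)
  have h3 : χ = fun x => ((Equiv.arrowCongr e.toEquiv (Equiv.refl ℂ)) χ) (e x) := by
    funext x
    change χ x = χ (e.symm (e x))
    rw [e.symm_apply_apply]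
  generalize (Equiv.arrowCongr e.toEquiv (Equiv.refl ℂ)) χ = ψ at h3 ⊢
  subst h3
  have hcv : IsIrreducibleCharacter ψ → ∀ f : G → F, IsClassFun f →
      centralValue red (fun x => ψ (e x)) (fun x : (⊤ : Subgroup G) => f x) =
        centralValue red ψ f :=
    fun hψ f hf => centralValue_comp red e hψ hf
  constructor
  · rintro ⟨a, b⟩
    have hψ : IsIrreducibleCharacter ψ := by
      have := irr_comp e.symm a
      simpa using this
    have hψB : ∀ f : G → F, IsClassFun f → centralValue red ψ f = B f := by
      intro f hf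
      rw [← hcv hψ f hf]
      exact b f hf
    refine ⟨?_, hψB⟩
    have : ψ = χ₀ := by
      by_contra hn
      apply hBf
      rw [← hψB f hf]
      by_contra hc
      exact hn ((hsep ψ hψ).1 hc)
    rw [this]
    exact hχ₀
  · rintro ⟨a, b⟩
    exact ⟨irr_comp e a.irr, fun f hf => by rw [hcv a.irr f hf]; exact b f hf⟩

end Pool.Agent.Y339.NV

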